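import Pool.Agent.R32.MaxSub.Ana3

/-!
# Maximal subfields of `ℝ` avoiding a real are never analytic sets (in particular never Borel)

In ZFC: if `F` is a maximal subfield of `ℝ` avoiding `y`, then the only analytic subfield of `ℝ`
containing `F` is `ℝ` itself. This follows from the theorem
(`Pool.Agent.R32.MaxSub.exists_transcendental_of_analytic`) that for every proper analytic subfield
of `ℝ` some real is transcendental over it.
-/

open MeasureTheory

namespace Pool.Agent.Results.MP_c4bd3e_lc.NoAnalytic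

/-- `F` is a maximal subfield of `ℝ` avoiding `y`. -/
def IsMaximalAvoiding (F : Subfield ℝ) (y : ℝ) : Prop :=
  y ∉ F ∧ ∀ F' : Subfield ℝ, F < F' → y ∈ F'

theorem eq_top_of_analytic {y : ℝ} {F : Subfield ℝ} (hF : IsMaximalAvoiding F y) (L : Subfield ℝ)
    (hFL : F ≤ L) (hL : AnalyticSet (L : Set ℝ)) : L = ⊤ := by
  by_contra hne
  obtain ⟨t, ht⟩ := Pool.Agent.R32.MaxSub.exists_transcendental_of_analytic hL hne
  apply ht
  have h1 : t ∈ Pool.Agent.R32.MaxSub.Acl F := (Pool.Agent.R32.MaxSub.mem_Acl _ _).2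
    (Pool.Agent.R32.MaxSub.algebraic_of_maximal hF.1 hF.2 t)
  exact (Pool.Agent.R32.MaxSub.mem_Acl _ _).1 (Pool.Agent.R32.MaxSub.Acl_mono hFL h1)

theorem not_analytic {y : ℝ} {F : Subfield ℝ} (hF : IsMaximalAvoiding F y) :
    ¬ AnalyticSet (F : Set ℝ) := by
  intro h
  have h1 := eq_top_of_analytic hF F le_rfl h
  apply hF.1
  rw [h1]
  trivial

/-- **Main result.** If `F` is a maximal subfield of `ℝ` avoiding `y`, then `ℝ` is the only
analytic subfield of `ℝ` containing `F`; in particular `F` is neither analytic nor Borel. -/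
theorem result (y : ℝ) (F : Subfield ℝ) (hF : IsMaximalAvoiding F y) :
    (∀ L : Subfield ℝ, F ≤ L → AnalyticSet (L : Set ℝ) → L = ⊤) ∧
      ¬ AnalyticSet (F : Set ℝ) ∧ ¬ MeasurableSet (F : Set ℝ) :=
  ⟨eq_top_of_analytic hF, not_analytic hF, fun h => not_analytic hF h.analyticSet⟩

end Pool.Agent.Results.MP_c4bd3e_lc.NoAnalytic
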