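import Pool.Agent.R32.MaxSub.Main

/-!
# Lebesgue null maximal subfields of `ℝ` avoiding `√2`

If the real line is not the union of fewer than continuum many meagre sets (in particular under the
continuum hypothesis, and under Martin's axiom), there is a maximal subfield of `ℝ` avoiding `√2`
which is Lebesgue measurable (of measure zero).
-/

open Cardinal MeasureTheory

namespace Pool.Agent.Results.MP_c4bd3e_lc.NullMaximalSubfield

/-- `F` is a maximal subfield of `ℝ` avoiding `y`. -/
def IsMaximalAvoiding (F : Subfield ℝ) (y : ℝ) : Prop :=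
  y ∉ F ∧ ∀ F' : Subfield ℝ, F < F' → y ∈ F'

/-- The real line is not the union of fewer than continuum many meagre sets. -/
def CovMeagreContinuum : Prop :=
  ∀ (ι : Type) (A : ι → Set ℝ), #ι < 𝔠 → (∀ i, IsMeagre (A i)) → (⋃ i, A i) ≠ Set.univ

theorem main (h : CovMeagreContinuum) : ∃ F : Subfield ℝ, IsMaximalAvoiding F (√2) ∧
    NullMeasurableSet (F : Set ℝ) volume ∧ volume (F : Set ℝ) = 0 := by
  obtain ⟨F, h1, h2, h3⟩ := Pool.Agent.R32.MaxSub.construction h
  have hnull : volume (F : Set ℝ) = 0 :=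
    measure_mono_null (fun s hs => h2 s hs) Pool.Agent.R32.MaxSub.volume_NN
  refine ⟨F, ⟨h1, fun F' hF' => ?_⟩, NullMeasurableSet.of_null hnull, hnull⟩
  obtain ⟨t, ht, htF⟩ := Set.exists_of_ssubset (show (F : Set ℝ) ⊂ F' from hF')
  exact Pool.Agent.R32.MaxSub.ext_le hF'.le ht (h3 t htF)

theorem of_CH (h : (ℵ₁ : Cardinal.{0}) = 𝔠) : CovMeagreContinuum := by
  intro ι A hι hA hU
  rw [← h] at hι
  have : Countable ι := by
    rw [← mk_le_aleph0_iff, ← Order.lt_succ_iff, succ_aleph0]
    exact hι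
  have hm : IsMeagre (⋃ i, A i) := isMeagre_iUnion hA
  rw [hU] at hm
  exact not_isMeagre_of_isOpen isOpen_univ Set.univ_nonempty hm

/-- **Main result.** -/
theorem result :
    Irrational (√2) ∧
    (CovMeagreContinuum → ∃ F : Subfield ℝ, IsMaximalAvoiding F (√2) ∧
      NullMeasurableSet (F : Set ℝ) volume ∧ volume (F : Set ℝ) = 0) ∧
    ((ℵ₁ : Cardinal.{0}) = 𝔠 → CovMeagreContinuum) :=
  ⟨irrational_sqrt_two, main, of_CH⟩

end Pool.Agent.Results.MP_c4bd3e_lc.NullMaximalSubfield
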